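import Pool.Agent.H62.UN.Targets

/-!
# MP_8b378c_ag, module DG2: the intersection of the two components of a degenerate fibre
-/

set_option autoImplicit false

namespace Pool.Agent.H55.UNT

open Polynomial Pool.Agent.H17.UN Pool.Agent.H62.UN

section

variable {k : Type} [Field k] (P Q : k[X])

theorem of_CC_DG2 (c : k) : AdjoinRoot.of (X ^ 2 - C (dp P Q) : k[X][X][X]) (C (C c)) =
    algebraMap k (CR P Q) c := by
  rw [AdjoinRoot.algebraMap_eq']
  rfl

theorem hom_DG2 (a : k) (φ : CR P Q →ₐ[k] k[X]) (h1 : φ (xC P Q) = C a)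
    (h2 : φ (zC P Q) = X) (al : k[X][X]) :
    φ (AdjoinRoot.of _ al) = al.map (evalRingHom a) := by
  have key : (φ : CR P Q →+* k[X]).comp (AdjoinRoot.of (X ^ 2 - C (dp P Q) : k[X][X][X])) =
      mapRingHom (evalRingHom a) := by
    refine Polynomial.ringHom_ext' ?_ ?_
    · refine Polynomial.ringHom_ext' ?_ ?_
      · ext c
        have e : φ (AdjoinRoot.of (X ^ 2 - C (dp P Q) : k[X][X][X]) (C (C c))) = C c := by
          rw [of_CC_DG2, φ.commutes]
          rfl
        simp only [RingHom.comp_apply, RingHom.coe_coe, e, coe_mapRingHom, map_C,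
          coe_evalRingHom, eval_C]
      · have e : φ (AdjoinRoot.of (X ^ 2 - C (dp P Q) : k[X][X][X]) (C X)) = C a := h1
        simp only [RingHom.comp_apply, RingHom.coe_coe, e, coe_mapRingHom, map_C,
          coe_evalRingHom, eval_X]
    · have e : φ (AdjoinRoot.of (X ^ 2 - C (dp P Q) : k[X][X][X]) X) = X := h2
      simp only [RingHom.comp_apply, RingHom.coe_coe, e, coe_mapRingHom, map_X]
  exact congrArg (fun g : k[X][X] →+* k[X] => g al) key

theorem dvd_DG2 (a : k) (al : k[X][X]) (h : al.map (evalRingHom a) = 0) :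
    ∃ al', al = C (X - C a) * al' := by
  have : C (X - C a) ∣ al := by
    rw [C_dvd_iff_dvd_coeff]
    intro i
    rw [dvd_iff_isRoot, IsRoot.def]
    have e := congrArg (fun g => g.coeff i) h
    simpa [coeff_map] using e
  exact this

theorem rep_DG2 (b : CR P Q) : ∃ al be : k[X][X],
    b = AdjoinRoot.of _ al + AdjoinRoot.of _ be * yC P Q := by
  obtain ⟨f, rfl⟩ := AdjoinRoot.mk_surjective b
  have hm : (X ^ 2 - C (dp P Q) : k[X][X][X]).Monic := monic_X_pow_sub_C _ (by norm_num)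
  have hd : (X ^ 2 - C (dp P Q) : k[X][X][X]).degree = 2 := degree_X_pow_sub_C (by norm_num) _
  set g := f %ₘ (X ^ 2 - C (dp P Q) : k[X][X][X]) with hg
  have h1 : AdjoinRoot.mk (X ^ 2 - C (dp P Q) : k[X][X][X]) f = AdjoinRoot.mk _ g := by
    rw [AdjoinRoot.mk_eq_mk]
    refine ⟨f /ₘ (X ^ 2 - C (dp P Q) : k[X][X][X]), ?_⟩
    have := modByMonic_add_div f (X ^ 2 - C (dp P Q) : k[X][X][X])
    rw [← hg] at this
    linear_combination -this
  have h2 : g.degree < 2 := by
    rw [← hd]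
    exact degree_modByMonic_lt f hm
  have h3 : g.degree ≤ 1 := by
    exact Order.le_of_lt_succ h2
  have h4 := eq_X_add_C_of_degree_le_one h3
  refine ⟨g.coeff 0, g.coeff 1, ?_⟩
  rw [h1]
  conv_lhs => rw [h4]
  rw [map_add, map_mul, AdjoinRoot.mk_C, AdjoinRoot.mk_C, AdjoinRoot.mk_X]
  rw [add_comm]
  rfl

end

theorem pf_DG2 : T_DG2 := by
  intro k _ _ P Q a l hl φ ψ h1 h2 h3 h4 h5 h6 b hφ hψ
  obtain ⟨al, be, rfl⟩ := rep_DG2 P Q b
  rw [map_add, map_mul, hom_DG2 P Q a φ h1 h2, hom_DG2 P Q a φ h1 h2, h3] at hφ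
  rw [map_add, map_mul, hom_DG2 P Q a ψ h4 h5, hom_DG2 P Q a ψ h4 h5, h6] at hψ
  have h2ne : (2 : k[X]) ≠ 0 := two_ne_zero
  have e1 : al.map (evalRingHom a) = 0 := by
    have : (2 : k[X]) * al.map (evalRingHom a) = 0 := by linear_combination hφ + hψ
    exact (mul_eq_zero.1 this).resolve_left h2ne
  have e2 : be.map (evalRingHom a) = 0 := by
    rw [e1, zero_add] at hφ
    exact (mul_eq_zero.1 hφ).resolve_right hl
  obtain ⟨al', ha⟩ := dvd_DG2 a al e1
  obtain ⟨be', hb⟩ := dvd_DG2 a be e2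
  have e3 : AdjoinRoot.of (X ^ 2 - C (dp P Q) : k[X][X][X]) (C (X - C a)) =
      xC P Q - algebraMap k (CR P Q) a := by
    rw [map_sub, map_sub, of_CC_DG2]
    rfl
  refine ⟨AdjoinRoot.of _ al' + AdjoinRoot.of _ be' * yC P Q, ?_⟩
  rw [ha, hb, map_mul, map_mul, e3]
  ring

end Pool.Agent.H55.UNT
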