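import Pool.Agent.H62.UN.Targets

/-!
# MP_8b378c_ag, module DVC: construction of a discrete valuation
-/

set_option autoImplicit false

namespace Pool.Agent.H55.UNT

open Polynomial Pool.Agent.H17.UN Pool.Agent.H62.UN
open scoped WithZero

/-- the integer valued function of a valuation -/
noncomputable def ordV {E : Type} [Field E] (v : Valuation E ℤᵐ⁰) (x : E) : ℤ :=
  -WithZero.log (v x)

theorem ordV_isVal {E : Type} [Field E] (v : Valuation E ℤᵐ⁰) (p : E)
    (hp : v p = WithZero.exp (-1 : ℤ)) : IsVal (ordV v) := by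
  refine ⟨?_, ?_, ?_, ⟨p, ?_⟩⟩
  · simp [ordV]
  · intro a b ha hb
    have h1 : v a ≠ 0 := (Valuation.ne_zero_iff v).2 ha
    have h2 : v b ≠ 0 := (Valuation.ne_zero_iff v).2 hb
    simp only [ordV, map_mul, WithZero.log_mul h1 h2]
    ring
  · intro a b ha hb hab
    have h1 : v a ≠ 0 := (Valuation.ne_zero_iff v).2 ha
    have h2 : v b ≠ 0 := (Valuation.ne_zero_iff v).2 hb
    have h3 : v (a + b) ≠ 0 := (Valuation.ne_zero_iff v).2 hab
    simp only [ordV]
    rcases le_max_iff.1 (v.map_add a b) with h | h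
    · have := (WithZero.log_le_log h3 h1).2 h
      exact min_le_iff.2 (Or.inl (by linarith))
    · have := (WithZero.log_le_log h3 h2).2 h
      exact min_le_iff.2 (Or.inr (by linarith))
  · simp [ordV, hp]

theorem ordV_nonneg {E : Type} [Field E] (v : Valuation E ℤᵐ⁰) {x : E} (h : v x ≤ 1) :
    0 ≤ ordV v x := by
  unfold ordV
  by_cases hx : v x = 0
  · rw [hx]; simp
  · have := (WithZero.log_le_log hx one_ne_zero).2 h
    rw [WithZero.log_one] at this
    linarith

theorem le_one_of_ordV {E : Type} [Field E] (v : Valuation E ℤᵐ⁰) {x : E}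
    (h : 0 ≤ ordV v x) : v x ≤ 1 := by
  by_cases hx : v x = 0
  · rw [hx]; exact zero_le_one
  · rw [← WithZero.log_le_log hx one_ne_zero, WithZero.log_one]
    unfold ordV at h
    linarith

theorem lt_one_of_ordV {E : Type} [Field E] (v : Valuation E ℤᵐ⁰) {x : E}
    (h : 0 < ordV v x) : v x < 1 := by
  by_cases hx : v x = 0
  · rw [hx]; exact zero_lt_one
  · rw [← WithZero.log_lt_log hx one_ne_zero, WithZero.log_one]
    unfold ordV at h
    linarith

theorem ordV_of_eq_one {E : Type} [Field E] (v : Valuation E ℤᵐ⁰) {x : E} (h : v x = 1) :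
    ordV v x = 0 := by
  unfold ordV
  rw [h, WithZero.log_one, neg_zero]

theorem pf_DVC : T_DVC := by
  intro k E _ _ _ A hN hF q ϖ u hq hϖ hϖ0 hu hpr
  have hInj : Function.Injective (algebraMap A E) := Subtype.val_injective
  have : IsFractionRing A E := by
    refine IsFractionRing.of_field A E fun z => ?_
    obtain ⟨a, ha, b, hb, -, e⟩ := hF z
    exact ⟨⟨a, ha⟩, ⟨b, hb⟩, e⟩
  let S := Localization.AtPrime q
  have hunit : ∀ y : q.primeCompl, IsUnit (algebraMap A E (y : A)) := by
    intro y
    refine IsUnit.mk0 _ fun h => ?_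
    have h0 : (y : A) = 0 := hInj (by rw [h, map_zero])
    exact y.2 (by rw [h0]; exact q.zero_mem)
  let algSE : Algebra S E := (IsLocalization.lift (M := q.primeCompl) hunit).toAlgebra
  have : IsScalarTower A S E := by
    refine IsScalarTower.of_algebraMap_eq fun a => ?_
    change _ = IsLocalization.lift (M := q.primeCompl) hunit (algebraMap A S a)
    rw [IsLocalization.lift_eq]
  have : IsFractionRing S E :=
    IsFractionRing.isFractionRing_of_isDomain_of_isLocalization q.primeCompl S E
  have : IsNoetherianRing S := IsLocalization.isNoetherianRing q.primeCompl S hN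
  have hSinj : Function.Injective (algebraMap A S) :=
    IsLocalization.injective S q.primeCompl_le_nonZeroDivisors
  -- the maximal ideal is principal
  have hmax : IsLocalRing.maximalIdeal S = Ideal.span {algebraMap A S ϖ} := by
    refine le_antisymm ?_ ?_
    · intro x hx
      obtain ⟨b, s, rfl⟩ := IsLocalization.exists_mk'_eq q.primeCompl x
      have hb : b ∈ q := (IsLocalization.AtPrime.mk'_mem_maximal_iff S q b s).1 hx
      obtain ⟨c, hc⟩ := hpr b hb
      rw [Ideal.mem_span_singleton]
      refine ⟨IsLocalization.mk' S c (⟨u, hu⟩ * s), ?_⟩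
      rw [← IsLocalization.mk'_one (M := q.primeCompl) S ϖ, ← IsLocalization.mk'_mul, one_mul,
        IsLocalization.mk'_eq_iff_eq]
      rw [← hc]
      congr 1
      simp only [Submonoid.coe_mul]
      ring
    · rw [Ideal.span_singleton_le_iff_mem]
      exact (IsLocalization.AtPrime.to_map_mem_maximal_iff S q ϖ).2 hϖ
  have hϖS : algebraMap A S ϖ ≠ 0 := by
    intro h
    exact hϖ0 (hSinj (by rw [h, map_zero]))
  have hnf : ¬ IsField S := by
    rw [IsLocalRing.isField_iff_maximalIdeal_eq, hmax, Ideal.span_singleton_eq_bot]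
    exact hϖS
  have hpri : (IsLocalRing.maximalIdeal S).IsPrincipal := ⟨⟨algebraMap A S ϖ, hmax⟩⟩
  have : IsDiscreteValuationRing S :=
    ((IsDiscreteValuationRing.TFAE S hnf).out 0 4).2 hpri
  set P := IsDiscreteValuationRing.maximalIdeal S with hP
  set v : Valuation E ℤᵐ⁰ := P.valuation E with hv
  have hvS : ∀ s : S, v (algebraMap S E s) ≤ 1 := fun s => P.valuation_le_one s
  have hAE : ∀ a : A, (a : E) = algebraMap S E (algebraMap A S a) := fun a =>
    IsScalarTower.algebraMap_apply A S E a
  have hvϖ : v (ϖ : E) = WithZero.exp (-1 : ℤ) := by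
    rw [hAE, hv, P.valuation_of_algebraMap]
    exact P.intValuation_singleton hϖS hmax
  have hmem : ∀ a : A, v (a : E) < 1 ↔ a ∈ q := by
    intro a
    rw [hAE, hv, P.valuation_lt_one_iff_mem]
    exact IsLocalization.AtPrime.to_map_mem_maximal_iff S q a
  refine ⟨ordV v, ordV_isVal v (ϖ : E) hvϖ, ⟨?_, ?_⟩, ?_, ?_⟩
  · intro a ha
    refine ordV_nonneg v ?_
    rw [show a = ((⟨a, ha⟩ : A) : E) from rfl, hAE]
    exact hvS _
  · intro x hx h0
    obtain ⟨s, hs⟩ := IsDiscreteValuationRing.exists_lift_of_le_one (A := S) (K := E)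
      (le_one_of_ordV v h0)
    obtain ⟨a, b, rfl⟩ := IsLocalization.exists_mk'_eq q.primeCompl s
    have hb0 : ((b : A) : E) ≠ 0 := (hunit b).ne_zero
    refine ⟨(a : E), a.2, ((b : A) : E), (b : A).2, hb0, ?_, ?_⟩
    · refine ordV_of_eq_one v (le_antisymm ?_ ?_)
      · rw [hAE]; exact hvS _
      · rw [← not_lt, hmem]
        exact b.2
    · rw [eq_div_iff hb0, ← hs, hAE, ← map_mul, IsLocalization.mk'_spec, hAE]
  · simp [ordV, hvϖ]
  · intro a h
    exact (hmem a).1 (lt_one_of_ordV v h)

end Pool.Agent.H55.UNT
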